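import Pool.Agent.Run7.h930.CG.IMB

/-! MP_176ace_nt, piece GRQ (helper930 for helper892) -/

set_option autoImplicit false

namespace Run7.h930.CG

open Pool.Agent.Run7.h892.CG

theorem t_GRQ : S_COO → S_LOC → S_CRT → S_GRQ := by
  intro hCOO hLOC hCRT C _ M R g hM c hc hcard
  refine hCRT C M (R - g) hM ?_
  intro p hp hpM
  have : Fact p.Prime := ⟨hp⟩
  have hpk : 0 < M.factorization p := hp.factorization_pos_of_dvd hM.ne' hpM
  set k := M.factorization p with hk
  have hdvd : p ^ k ∣ M := Nat.ordProj_dvd M p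
  have hMp : M / p * p = M := Nat.div_mul_cancel hpM
  have hMpk : M / p ^ k * p ^ k = M := Nat.div_mul_cancel hdvd
  have hMpk' : M / p ^ k * p ^ (k - 1) = M / p := by
    have h1 : M / p ^ k * p ^ (k - 1) * p = M / p * p := by
      rw [hMp, mul_assoc, ← pow_succ, Nat.sub_add_cancel hpk, hMpk]
    exact Nat.eq_of_mul_eq_mul_right hp.pos h1
  -- the homomorphism
  obtain ⟨f, hf⟩ := exists_hom (C := C) hp.pos (fun i => c i ^ (M / p))
    (fun i => by rw [← pow_mul, hMp]; exact hc i)
  have hf' : ∀ v : Fin R → ZMod p, f (Multiplicative.ofAdd v) = ∏ i, c i ^ (M / p * (v i).val) := by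
    intro v
    rw [hf v]
    exact Finset.prod_congr rfl fun i _ => (pow_mul _ _ _).symm
  let N : AddSubgroup (Fin R → ZMod p) :=
    { carrier := {y | f (Multiplicative.ofAdd y) = 1}
      zero_mem' := by
        show f (Multiplicative.ofAdd 0) = 1
        rw [ofAdd_zero, map_one]
      add_mem' := by
        intro a b ha hb
        have ha' : f (Multiplicative.ofAdd a) = 1 := ha
        have hb' : f (Multiplicative.ofAdd b) = 1 := hb
        show f (Multiplicative.ofAdd (a + b)) = 1
        rw [ofAdd_add, map_mul, ha', hb', one_mul]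
      neg_mem' := by
        intro a ha
        have ha' : f (Multiplicative.ofAdd a) = 1 := ha
        show f (Multiplicative.ofAdd (-a)) = 1
        rw [ofAdd_neg, map_inv, ha', inv_one] }
  have hN : Nat.card N ≤ p ^ g := by
    refine le_trans (le_of_eq ?_) (hcard p hp hpM)
    refine Nat.card_congr (Equiv.subtypeEquivRight ?_)
    intro y
    show f (Multiplicative.ofAdd y) = 1 ↔ _
    rw [hf' y]
  obtain ⟨e, he, hN0⟩ := hCOO p R g hp N hN
  refine ⟨fun j => c (e j) ^ (M / p ^ k), ?_⟩
  refine hLOC C p k (R - g) hp hpk _ ?_ ?_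
  · intro j
    show (c (e j) ^ (M / p ^ k)) ^ p ^ k = 1
    rw [← pow_mul, hMpk]
    exact hc _
  · intro y hy
    let Y : Fin R → ZMod p := Function.extend e (fun j => ((y j : ℤ) : ZMod p)) (fun _ => 0)
    have hYe : ∀ j, Y (e j) = ((y j : ℤ) : ZMod p) := fun j => by
      simp only [Y]
      rw [he.extend_apply]
    have hY0 : ∀ i, i ∉ Set.range e → Y i = 0 := fun i hi => by
      simp only [Y]
      rw [Function.extend_apply' _ _ _ (fun ⟨a, ha⟩ => hi ⟨a, ha⟩)]
    have hYN : Y ∈ N := by
      show f (Multiplicative.ofAdd Y) = 1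
      rw [hf' Y, ← hy]
      symm
      refine Fintype.prod_of_injective e he _ _ ?_ ?_
      · intro i hi
        rw [hY0 i hi]
        simp
      · intro j
        rw [hYe j]
        show (c (e j) ^ (M / p ^ k)) ^ ((p : ℤ) ^ (k - 1) * y j) = _
        have h1 : (c (e j) ^ (M / p)) ^ p = 1 := by
          rw [← pow_mul, hMp]; exact hc _
        have h2 : (c (e j) ^ (M / p ^ k)) ^ ((p : ℤ) ^ (k - 1) * y j) =
            (c (e j) ^ (M / p)) ^ (y j) := by
          rw [zpow_mul]
          congr 1
          rw [show ((p : ℤ) ^ (k - 1)) = ((p ^ (k - 1) : ℕ) : ℤ) by push_cast; rfl, zpow_natCast,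
            ← pow_mul, hMpk']
        rw [h2, pow_mul, ← zpow_natCast _ (ZMod.val _), ZMod.val_intCast]
        exact zpow_eq_zpow_emod' _ h1
    have hYz := hN0 Y hYN hY0
    intro j
    have h3 : ((y j : ℤ) : ZMod p) = 0 := by
      rw [← hYe j, hYz]
      rfl
    exact (ZMod.intCast_zmod_eq_zero_iff_dvd _ _).1 h3

end Run7.h930.CG
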