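import Pool.Agent.Run7.h892.CG.Stm2

/-! MP_176ace_nt, pieces IMB and LOC (helper930 for helper892) -/

set_option autoImplicit false

namespace Run7.h930.CG

open Pool.Agent.Run7.h892.CG

/-- the map `v ↦ ∏ d_i ^ (v i).val` is a homomorphism -/
theorem exists_hom {C : Type} [CommGroup C] {m R : ℕ} (hm : 0 < m) (d : Fin R → C)
    (hd : ∀ i, d i ^ m = 1) :
    ∃ f : Multiplicative (Fin R → ZMod m) →* C,
      ∀ v : Fin R → ZMod m, f (Multiplicative.ofAdd v) = ∏ i, d i ^ (v i).val := by
  have : NeZero m := ⟨hm.ne'⟩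
  have hmul : ∀ v w : Fin R → ZMod m,
      ∏ i, d i ^ ((v + w) i).val = (∏ i, d i ^ (v i).val) * ∏ i, d i ^ (w i).val := by
    intro v w
    rw [← Finset.prod_mul_distrib]
    refine Finset.prod_congr rfl fun i _ => ?_
    rw [Pi.add_apply, ZMod.val_add, ← pow_add]
    exact (pow_eq_pow_mod _ (hd i)).symm
  refine ⟨{ toFun := fun v => ∏ i, d i ^ ((Multiplicative.toAdd v) i).val
            map_one' := by simp
            map_mul' := fun v w => hmul _ _ }, fun v => rfl⟩

theorem t_IMB : S_IMB := by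
  intro C _ M r hM c hc
  have : NeZero M := ⟨hM.ne'⟩
  obtain ⟨f, hf⟩ := exists_hom hM c hc.1
  refine ⟨f, ?_⟩
  rw [injective_iff_map_eq_one]
  intro v hv
  have h1 : ∏ i, c i ^ (((Multiplicative.toAdd v) i).val : ℤ) = 1 := by
    have h2 := hf (Multiplicative.toAdd v)
    rw [ofAdd_toAdd, hv] at h2
    rw [h2]
    exact Finset.prod_congr rfl fun i _ => zpow_natCast _ _
  have h3 := hc.2 _ h1
  have h4 : Multiplicative.toAdd v = 0 := by
    funext i
    have h5 : M ∣ ((Multiplicative.toAdd v) i).val := Int.natCast_dvd_natCast.1 (h3 i)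
    exact (ZMod.val_eq_zero _).1 (Nat.eq_zero_of_dvd_of_lt h5 (ZMod.val_lt _))
  exact h4

theorem t_LOC : S_LOC := by
  intro C _ p k R hp hk c hc hy
  refine ⟨hc, ?_⟩
  intro z hz
  have key : ∀ j, j ≤ k → ∀ i, (p : ℤ) ^ j ∣ z i := by
    intro j
    induction j with
    | zero => intro _ i; simp
    | succ j ih =>
      intro hj
      have h1 := ih (by omega)
      choose y hyz using h1
      have h2 : ∏ i, c i ^ ((p : ℤ) ^ (k - 1) * y i) = 1 := by
        have h3 : ∏ i, c i ^ ((p : ℤ) ^ (k - 1) * y i) =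
            (∏ i, c i ^ z i) ^ ((p : ℤ) ^ (k - 1 - j)) := by
          rw [← Finset.prod_zpow]
          refine Finset.prod_congr rfl fun i _ => ?_
          rw [← zpow_mul]
          congr 1
          rw [hyz i]
          have h4 : (p : ℤ) ^ (k - 1) = (p : ℤ) ^ j * (p : ℤ) ^ (k - 1 - j) := by
            rw [← pow_add]
            congr 1
            omega
          rw [h4]
          ring
        rw [h3, hz, one_zpow]
      intro i
      obtain ⟨w, hw⟩ := hy y h2 i
      refine ⟨w, ?_⟩
      rw [hyz i, hw, pow_succ]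
      ring
  intro i
  have := key k le_rfl i
  push_cast
  exact this

end Run7.h930.CG
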